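import Pool.Agent.Helper62.DSH.StA

/-!
# Project DS (MP_087a81_gt), module OPR
-/

set_option autoImplicit false

open Set Filter Topology MeasureTheory
open scoped ContDiff ENNReal

namespace Pool.Agent.Helper28.DSH

open Helper62.LH Helper62.DSH

/-- the antisymmetric matrix unit -/
private noncomputable def Em {n : ℕ} (a b c l : Fin n) : ℝ :=
  (if c = a ∧ l = b then 1 else 0) - (if c = b ∧ l = a then 1 else 0)

private theorem rhoE {n j : ℕ} (a b : Fin n) (t : Tn n j) (I : Fin j → Fin n) :
    rho (Em a b) t I = ∑ k, ((if I k = a then t (Function.update I k b) else 0) -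
      (if I k = b then t (Function.update I k a) else 0)) := by
  unfold rho Em
  refine Finset.sum_congr rfl fun k _ => ?_
  simp only [sub_mul, Finset.sum_sub_distrib, ite_and, ite_mul, one_mul, zero_mul]
  congr 1
  · split_ifs with h
    · simp
    · simp
  · split_ifs with h
    · simp
    · simp

private theorem sumI {n m : ℕ} (k : Fin (m + 1)) (a : Fin n) (f : (Fin (m + 1) → Fin n) → ℝ) :
    ∑ I : Fin (m + 1) → Fin n, (if I k = a then f I else 0) =
      ∑ K : Fin m → Fin n, f (k.insertNth a K) := by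
  rw [← Equiv.sum_comp (Fin.insertNthEquiv (fun _ => Fin n) k), Fintype.sum_prod_type]
  simp only [Fin.insertNthEquiv_apply, Fin.insertNth_apply_same]
  rw [Finset.sum_comm]
  refine Finset.sum_congr rfl fun K _ => ?_
  simp
  rfl

private theorem ipE {n m : ℕ} (hAlt : TAlt) (a b : Fin n) (s t : Tn n (m + 1)) (hs : Altn s)
    (ht : Altn t) :
    ipt (rho (Em a b) t) s = ipt (ct b t) (ct a s) - ipt (ct a t) (ct b s) := by
  obtain ⟨-, -, -, h4⟩ := hAlt n m
  have key : ∀ (k : Fin (m + 1)) (a b : Fin n),
      ∑ I : Fin (m + 1) → Fin n, (if I k = a then t (Function.update I k b) else 0) * s I =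
        ∑ K : Fin m → Fin n, t (Fin.cons b K) * s (Fin.cons a K) := by
    intro k a b
    have h1 := sumI k a (fun I => t (Function.update I k b) * s I)
    simp only [ite_mul, zero_mul]
    rw [h1]
    refine Finset.sum_congr rfl fun K _ => ?_
    have h2 : Function.update (k.insertNth (α := fun _ => Fin n) a K) k b = k.insertNth b K :=
      Fin.update_insertNth (α := fun _ => Fin n) k a b K
    rw [h2, h4 t ht k b K, h4 s hs k a K]
    have h3 : ((-1 : ℝ) ^ (k : ℕ)) * ((-1 : ℝ) ^ (k : ℕ)) = 1 := by
      rw [← mul_pow]; norm_num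
    linear_combination (t (Fin.cons b K) * s (Fin.cons a K)) * h3
  have h5 : ∑ I : Fin (m + 1) → Fin n, rho (Em a b) t I * s I =
      (m + 1 : ℝ) * (∑ K : Fin m → Fin n, t (Fin.cons b K) * s (Fin.cons a K) -
        ∑ K : Fin m → Fin n, t (Fin.cons a K) * s (Fin.cons b K)) := by
    simp only [rhoE, Finset.sum_mul]
    rw [Finset.sum_comm]
    have h6 : ∀ k : Fin (m + 1), ∑ I : Fin (m + 1) → Fin n,
        ((if I k = a then t (Function.update I k b) else 0) -
          (if I k = b then t (Function.update I k a) else 0)) * s I =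
        ∑ K : Fin m → Fin n, t (Fin.cons b K) * s (Fin.cons a K) -
          ∑ K : Fin m → Fin n, t (Fin.cons a K) * s (Fin.cons b K) := by
      intro k
      simp only [sub_mul, Finset.sum_sub_distrib]
      rw [key k a b, key k b a]
    rw [Finset.sum_congr rfl fun k _ => h6 k, Finset.sum_const, Finset.card_univ,
      Fintype.card_fin, nsmul_eq_mul]
    push_cast
    ring
  unfold ipt ct
  rw [h5, Nat.factorial_succ]
  push_cast
  have h7 : ((m.factorial : ℕ) : ℝ) ≠ 0 := by
    exact_mod_cast Nat.factorial_ne_zero m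
  have h8 : (m + 1 : ℝ) ≠ 0 := by positivity
  field_simp

private theorem rhoR {n j : ℕ} (A : Fin n → Fin n → ℝ) (hA : ∀ c l, A c l = -A l c) (t : Tn n j)
    (I : Fin j → Fin n) :
    2 * rho A t I = ∑ c, ∑ l, A c l * rho (Em c l) t I := by
  have h1 : ∀ c l, rho (Em c l) t I =
      ∑ k, ((if I k = c then t (Function.update I k l) else 0) -
      (if I k = l then t (Function.update I k c) else 0)) := fun c l => rhoE c l t I
  simp only [h1, Finset.mul_sum, mul_sub, Finset.sum_sub_distrib]
  have h2 : ∑ c, ∑ l, ∑ k, A c l * (if I k = c then t (Function.update I k l) else 0) =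
      rho A t I := by
    unfold rho
    have : ∀ c : Fin n, ∑ l, ∑ k, A c l * (if I k = c then t (Function.update I k l) else 0) =
        ∑ k, ∑ l, A c l * (if I k = c then t (Function.update I k l) else 0) :=
      fun c => Finset.sum_comm
    rw [Finset.sum_congr rfl fun c _ => this c, Finset.sum_comm]
    refine Finset.sum_congr rfl fun k _ => ?_
    rw [Finset.sum_comm]
    refine Finset.sum_congr rfl fun l _ => ?_
    simp
  have h3 : ∑ c, ∑ l, ∑ k, A c l * (if I k = l then t (Function.update I k c) else 0) =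
      -rho A t I := by
    unfold rho
    rw [Finset.sum_comm]
    have : ∀ l : Fin n, ∑ c, ∑ k, A c l * (if I k = l then t (Function.update I k c) else 0) =
        ∑ k, ∑ c, A c l * (if I k = l then t (Function.update I k c) else 0) :=
      fun l => Finset.sum_comm
    rw [Finset.sum_congr rfl fun c _ => this c, Finset.sum_comm, ← Finset.sum_neg_distrib]
    refine Finset.sum_congr rfl fun k _ => ?_
    rw [Finset.sum_comm, ← Finset.sum_neg_distrib]
    refine Finset.sum_congr rfl fun l _ => ?_
    rw [Finset.sum_eq_single (I k)]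
    · rw [hA l (I k)]; simp
    · intro b _ hb
      simp [Ne.symm hb]
    · simp
  rw [h2, h3]
  ring

private theorem iptComm {n j : ℕ} (s t : Tn n j) : ipt s t = ipt t s := by
  unfold ipt
  congr 1
  exact Finset.sum_congr rfl fun I _ => mul_comm _ _

private theorem ctNeg {n j : ℕ} (a : Fin n) (A : Fin n → Fin n → ℝ) (t : Tn n (j + 1)) :
    ct a (rho (fun c l => -A c l) t) = -ct a (rho A t) := by
  funext K
  simp [ct, rho, Finset.sum_neg_distrib]

private theorem iptNeg {n j : ℕ} (s t : Tn n j) : ipt s (-t) = -ipt s t := by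
  unfold ipt
  simp [Finset.sum_neg_distrib, neg_div]

private theorem wzPos {n m : ℕ} (hRho : TRho) (hAlt : TAlt) (R : Fin n → Fin n → Fin n → Fin n → ℝ)
    (hab : ∀ a b c l, R a b c l = -R b a c l) (hcl : ∀ a b c l, R a b c l = -R a b l c)
    (hpos : ∀ X : Fin n → Fin n → ℝ, 0 ≤ ∑ a, ∑ b, ∑ c, ∑ l, R a b l c * (X a b * X c l))
    (t : Tn n (m + 1)) (ht : Altn t) : 0 ≤ Wz R t := by
  have hs : ∀ a b, Altn (rho (R a b) t) := fun a b =>
    (hRho n (m + 1) (R a b) (R a b)).2.2.1 t ht
  have hsw : Wz R t = -∑ a, ∑ b, ipt (ct b t) (ct a (rho (R a b) t)) := by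
    unfold Wz
    rw [Finset.sum_comm, ← Finset.sum_neg_distrib]
    refine Finset.sum_congr rfl fun a _ => ?_
    rw [← Finset.sum_neg_distrib]
    refine Finset.sum_congr rfl fun b _ => ?_
    have h1 : R b a = fun c l => -R a b c l := by
      funext c l
      exact hab b a c l
    rw [h1, ctNeg, iptNeg]
  have h2 : 2 * Wz R t = -∑ a, ∑ b, ipt (rho (Em a b) t) (rho (R a b) t) := by
    have h3 : 2 * Wz R t = Wz R t + Wz R t := by ring
    rw [h3]
    nth_rw 2 [hsw]
    unfold Wz
    rw [← sub_eq_add_neg, ← Finset.sum_sub_distrib, ← Finset.sum_neg_distrib]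
    refine Finset.sum_congr rfl fun a _ => ?_
    rw [← Finset.sum_sub_distrib, ← Finset.sum_neg_distrib]
    refine Finset.sum_congr rfl fun b _ => ?_
    rw [ipE hAlt a b _ _ (hs a b) ht]
    ring
  have h4 : ∀ a b, 2 * ipt (rho (Em a b) t) (rho (R a b) t) =
      (∑ I, ∑ c, ∑ l, R a b c l * (rho (Em a b) t I * rho (Em c l) t I)) /
        ((m + 1).factorial : ℝ) := by
    intro a b
    unfold ipt
    rw [← mul_div_assoc, Finset.mul_sum]
    congr 1
    refine Finset.sum_congr rfl fun I _ => ?_
    have h5 := rhoR (R a b) (hcl a b) t I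
    calc 2 * (rho (Em a b) t I * rho (R a b) t I)
        = rho (Em a b) t I * (2 * rho (R a b) t I) := by ring
      _ = _ := by
        rw [h5, Finset.mul_sum]
        refine Finset.sum_congr rfl fun c _ => ?_
        rw [Finset.mul_sum]
        refine Finset.sum_congr rfl fun l _ => ?_
        ring
  have h6 : 4 * Wz R t = (∑ I, ∑ a, ∑ b, ∑ c, ∑ l, R a b l c *
      (rho (Em a b) t I * rho (Em c l) t I)) / ((m + 1).factorial : ℝ) := by
    have h7 : 4 * Wz R t = -∑ a, ∑ b, 2 * ipt (rho (Em a b) t) (rho (R a b) t) := by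
      have : 4 * Wz R t = 2 * (2 * Wz R t) := by ring
      rw [this, h2]
      simp only [← Finset.mul_sum]
      ring
    rw [h7]
    simp only [h4]
    simp only [← Finset.sum_div]
    rw [← neg_div]
    congr 1
    have h8 : ∑ I : Fin (m + 1) → Fin n, ∑ a, ∑ b, ∑ c, ∑ l, R a b l c *
        (rho (Em a b) t I * rho (Em c l) t I) = ∑ a, ∑ b, ∑ I : Fin (m + 1) → Fin n,
          ∑ c, ∑ l, R a b l c * (rho (Em a b) t I * rho (Em c l) t I) := by
      rw [Finset.sum_comm]
      refine Finset.sum_congr rfl fun a _ => ?_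
      rw [Finset.sum_comm]
    rw [h8, ← Finset.sum_neg_distrib]
    refine Finset.sum_congr rfl fun a _ => ?_
    rw [← Finset.sum_neg_distrib]
    refine Finset.sum_congr rfl fun b _ => ?_
    rw [← Finset.sum_neg_distrib]
    refine Finset.sum_congr rfl fun I _ => ?_
    rw [← Finset.sum_neg_distrib]
    refine Finset.sum_congr rfl fun c _ => ?_
    rw [← Finset.sum_neg_distrib]
    refine Finset.sum_congr rfl fun l _ => ?_
    rw [hcl a b c l]
    ring
  have h9 : 0 ≤ 4 * Wz R t := by
    rw [h6]
    refine div_nonneg (Finset.sum_nonneg fun I _ => ?_) (by positivity)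
    exact hpos (fun a b => rho (Em a b) t I)
  linarith

theorem hOpr (hCur : StCur) (hRho : TRho) (hAlt : TAlt) : TOpr := by
  intro n m g Γ F G hg hΓ hF x hop t ht
  refine wzPos hRho hAlt (Rc g Γ F x) ?_ ?_ ?_ t ht
  · intro a b c l
    unfold Rc
    have : Rm Γ x (F b x) (F a x) (F c x) = -Rm Γ x (F a x) (F b x) (F c x) := by
      unfold Rm
      abel
    rw [this]
    simp
  · intro a b c l
    exact hCur n g Γ hg hΓ x (F a x) (F b x) (F c x) (F l x)
  · intro X
    have h := hop (n * n) (fun s => X (finProdFinEquiv.symm s).1 (finProdFinEquiv.symm s).2 •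
      F (finProdFinEquiv.symm s).1 x) (fun s => F (finProdFinEquiv.symm s).2 x)
    have hsm : ∀ (r : ℝ) (a b c : E n), Rm Γ x (r • a) b c = r • Rm Γ x a b c := by
      intro r a b c
      unfold Rm
      simp [smul_sub, smul_add]
    simp only [hsm, map_smul, smul_apply, smul_eq_mul] at h
    have e : ∀ f : Fin n → Fin n → ℝ, ∑ s : Fin (n * n), f (finProdFinEquiv.symm s).1
        (finProdFinEquiv.symm s).2 = ∑ a, ∑ b, f a b := by
      intro f
      rw [← Fintype.sum_prod_type']
      exact Equiv.sum_comp finProdFinEquiv.symm (fun p => f p.1 p.2)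
    have e1 := e (fun a b => ∑ t : Fin (n * n), X a b *
      (X (finProdFinEquiv.symm t).1 (finProdFinEquiv.symm t).2 *
        g x (Rm Γ x (F a x) (F b x) (F (finProdFinEquiv.symm t).2 x))
          (F (finProdFinEquiv.symm t).1 x)))
    have h' : 0 ≤ ∑ s : Fin (n * n), (fun a b => ∑ t : Fin (n * n), X a b *
      (X (finProdFinEquiv.symm t).1 (finProdFinEquiv.symm t).2 *
        g x (Rm Γ x (F a x) (F b x) (F (finProdFinEquiv.symm t).2 x))
          (F (finProdFinEquiv.symm t).1 x))) (finProdFinEquiv.symm s).1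
        (finProdFinEquiv.symm s).2 := by
      refine h.trans_eq ?_
      refine Finset.sum_congr rfl fun s _ => Finset.sum_congr rfl fun t _ => ?_
      ring
    rw [e1] at h'
    refine h'.trans_eq ?_
    refine Finset.sum_congr rfl fun a _ => Finset.sum_congr rfl fun b _ => ?_
    rw [e (fun c l => X a b * (X c l * g x (Rm Γ x (F a x) (F b x) (F l x)) (F c x)))]
    refine Finset.sum_congr rfl fun c _ => Finset.sum_congr rfl fun l _ => ?_
    unfold Rc
    ring

end Pool.Agent.Helper28.DSH
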